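import Mathlib

namespace Pool.Agent.Results.MP_ffb385_an.Spaceable

open Set Filter Topology
open scoped ContDiff BoundedContinuousFunction

variable {𝕜 : Type} [RCLike 𝕜]

/-- a function on `[0,1]` viewed as a function of a real variable (constant outside `[0,1]`) -/
noncomputable def ext (f : Icc (0 : ℝ) 1 → 𝕜) : ℝ → 𝕜 := IccExtend zero_le_one f

/-- `f` is infinitely differentiable on `[0,1]` (one-sided derivatives at the endpoints) -/
def Smooth (f : Icc (0 : ℝ) 1 → 𝕜) : Prop := ContDiffOn ℝ ∞ (ext f) (Icc 0 1)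

/-- the derivative of order `n` on `[0,1]` -/
noncomputable def der (n : ℕ) (f : Icc (0 : ℝ) 1 → 𝕜) (x : ℝ) : 𝕜 :=
  iteratedDerivWithin n (ext f) (Icc 0 1) x

/-- the radius of convergence of the Taylor series of `f` at `x` -/
noncomputable def rho (f : Icc (0 : ℝ) 1 → 𝕜) (x : ℝ) : ENNReal :=
  (FormalMultilinearSeries.ofScalars 𝕜 fun n : ℕ => der n f x / (n.factorial : 𝕜)).radius

/-- a fixed bump -/
noncomputable def bump : ContDiffBump (3 / 4 : ℝ) := ⟨1 / 16, 1 / 8, by norm_num, by norm_num⟩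

theorem exM (n : ℕ) : ∃ M : ℝ, 0 ≤ M ∧ ∀ x, |iteratedDeriv n bump x| ≤ M := by
  obtain ⟨C, hC⟩ := ((bump.contDiff (n := n)).continuous_iteratedFDeriv (m := n)
    le_rfl).bounded_above_of_compact_support (bump.hasCompactSupport.iteratedFDeriv (𝕜 := ℝ) n)
  refine ⟨C, (norm_nonneg _).trans (hC 0), fun x => ?_⟩
  rw [← Real.norm_eq_abs, ← norm_iteratedFDeriv_eq_norm_iteratedDeriv]
  exact hC x

/-- bounds for the derivatives of the bump -/
noncomputable def M (n : ℕ) : ℝ := (exM n).choose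

theorem M_nonneg (n : ℕ) : 0 ≤ M n := (exM n).choose_spec.1

theorem M_le (n : ℕ) (x : ℝ) : |iteratedDeriv n bump x| ≤ M n := (exM n).choose_spec.2 x

/-- rescaled bumps -/
noncomputable def hb (k : ℕ) (x : ℝ) : ℝ := bump (2 ^ k * x)

theorem hb_smooth (k : ℕ) : ContDiff ℝ ∞ (hb k) :=
  bump.contDiff.comp (contDiff_const.mul contDiff_id)

theorem hb_der (k n : ℕ) (x : ℝ) : |iteratedDeriv n (hb k) x| ≤ (2 ^ k) ^ n * M n := by
  unfold hb
  rw [iteratedDeriv_comp_const_mul bump.contDiff, abs_mul, abs_of_pos (by positivity)]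
  gcongr
  exact M_le _ _

theorem hb_zero {k : ℕ} {x : ℝ} (h : 2 ^ k * x ≤ 5 / 8 ∨ 7 / 8 ≤ 2 ^ k * x) : hb k x = 0 := by
  apply bump.zero_of_le_dist
  rw [Real.dist_eq]
  show 1 / 8 ≤ _
  rcases h with h | h
  · exact le_trans (by linarith) (neg_le_abs _)
  · exact le_trans (by linarith) (le_abs_self _)

/-- auxiliary constants -/
noncomputable def W (j : ℕ) : ℝ := (2 ^ j) ^ (2 * j + 2) * (M (2 * j + 1) + M (2 * j + 2)) +
  (2 * j + 2).factorial * (2 * j + 2) ^ (2 * j + 2) + 1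

/-- the frequencies -/
noncomputable def lam (j : ℕ) : ℝ :=
  2 ^ (j + 3) * ((j + 1) * (∑ i : Fin j, lam i ^ (2 * j + 2) + W j))
termination_by j
decreasing_by exact i.2

theorem W_ge (j : ℕ) : 1 ≤ W j := by
  have := M_nonneg (2 * j + 1)
  have := M_nonneg (2 * j + 2)
  unfold W
  exact le_add_of_nonneg_left (by positivity)

theorem P_nonneg (j : ℕ) : 0 ≤ ∑ i : Fin j, lam i ^ (2 * j + 2) :=
  Finset.sum_nonneg fun _ _ => Even.pow_nonneg ⟨j + 1, by ring⟩ _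

theorem lam_ge (j : ℕ) : 1 ≤ lam j := by
  rw [lam]
  have h1 := P_nonneg j
  have h2 := W_ge j
  have h3 : (1 : ℝ) ≤ 2 ^ (j + 3) := one_le_pow₀ (by norm_num)
  have h4 : (1 : ℝ) ≤ j + 1 := by simp
  exact one_le_mul_of_one_le_of_one_le h3 (one_le_mul_of_one_le_of_one_le h4 (by linarith))

/-- the amplitudes -/
noncomputable def amp (j : ℕ) : ℝ := 1 / (2 ^ (j + 2) * lam j ^ (2 * j))

theorem amp_pos (j : ℕ) : 0 < amp j := by
  have := lam_ge j
  unfold amp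
  positivity

theorem amp_le {j n : ℕ} (h : n ≤ 2 * j) : amp j * lam j ^ n ≤ 1 / 2 ^ (j + 2) := by
  have h1 := lam_ge j
  unfold amp
  rw [div_mul_eq_mul_div, one_mul, div_le_div_iff₀ (by positivity) (by positivity), one_mul,
    mul_comm]
  gcongr

/-- the terms of the lacunary series -/
noncomputable def tm (c : ℕ →ᵇ 𝕜) (j : ℕ) (x : ℝ) : 𝕜 :=
  (amp j * Real.cos (lam j * x)) • c (Nat.unpair j).1

theorem tm_smooth (c : ℕ →ᵇ 𝕜) (j : ℕ) : ContDiff ℝ ∞ (tm c j) := by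
  unfold tm
  fun_prop

theorem tm_der (c : ℕ →ᵇ 𝕜) (j n : ℕ) (x : ℝ) : ‖iteratedDeriv n (tm c j) x‖ =
    amp j * lam j ^ n * |iteratedDeriv n Real.cos (lam j * x)| * ‖c (Nat.unpair j).1‖ := by
  have h1 := lam_ge j
  have h2 := amp_pos j
  unfold tm
  rw [iteratedDeriv_smul_const (by fun_prop), iteratedDeriv_const_mul_field,
    iteratedDeriv_comp_const_mul Real.contDiff_cos, norm_smul, Real.norm_eq_abs, abs_mul, abs_mul,
    abs_of_pos h2, abs_of_pos (by positivity : 0 < lam j ^ n)]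
  ring

theorem tm_le (c : ℕ →ᵇ 𝕜) (j n : ℕ) (x : ℝ) :
    ‖iteratedDeriv n (tm c j) x‖ ≤ amp j * lam j ^ n * ‖c‖ := by
  have h1 := lam_ge j
  have h2 := amp_pos j
  rw [tm_der]
  have h3 := Real.abs_iteratedDeriv_cos_le_one n (lam j * x)
  have h4 := c.norm_coe_le_norm (Nat.unpair j).1
  calc _ ≤ amp j * lam j ^ n * 1 * ‖c‖ := by gcongr
    _ = _ := by ring

theorem v_summ (c : ℕ →ᵇ 𝕜) (n : ℕ) : Summable fun j => amp j * lam j ^ n * ‖c‖ := by
  refine Summable.mul_right _ (Summable.of_norm_bounded_eventually_nat summable_geometric_two ?_)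
  filter_upwards [eventually_ge_atTop n] with j hj
  have h1 := lam_ge j
  have h2 := amp_pos j
  rw [Real.norm_eq_abs, abs_of_pos (by positivity)]
  refine (amp_le (by omega)).trans ?_
  rw [one_div_pow]
  gcongr
  · norm_num
  · omega

theorem tm_summ (c : ℕ →ᵇ 𝕜) (n : ℕ) (x : ℝ) : Summable fun j => iteratedDeriv n (tm c j) x :=
  Summable.of_norm_bounded (v_summ c n) fun j => tm_le c j n x

/-- the lacunary series -/
noncomputable def G (c : ℕ →ᵇ 𝕜) (x : ℝ) : 𝕜 := ∑' j, tm c j x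

theorem G_smooth (c : ℕ →ᵇ 𝕜) : ContDiff ℝ ∞ (G c) :=
  contDiff_tsum (N := ⊤) (tm_smooth c) (fun k _ => v_summ c k) fun k i x _ => by
    rw [norm_iteratedFDeriv_eq_norm_iteratedDeriv]; exact tm_le c i k x

theorem G_der (c : ℕ →ᵇ 𝕜) (n : ℕ) (x : ℝ) :
    iteratedDeriv n (G c) x = ∑' j, iteratedDeriv n (tm c j) x := by
  have hb : ∀ (k i : ℕ) (x : ℝ), ‖iteratedFDeriv ℝ k (tm c i) x‖ ≤ amp i * lam i ^ k * ‖c‖ :=
    fun k i x => by rw [norm_iteratedFDeriv_eq_norm_iteratedDeriv]; exact tm_le c i k x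
  have h := iteratedFDeriv_tsum_apply (N := ⊤) (tm_smooth c) (fun k _ => v_summ c k)
    (fun k i x _ => hb k i x) (k := n) le_top x
  have hs : Summable fun j => iteratedFDeriv ℝ n (tm c j) x :=
    Summable.of_norm_bounded (v_summ c n) fun j => hb n j x
  unfold G
  rw [iteratedDeriv, h]
  exact (ContinuousMultilinearMap.apply ℝ (fun _ : Fin n => ℝ) 𝕜 fun _ => 1).map_tsum hs

theorem tail_le (c : ℕ →ᵇ 𝕜) (n m : ℕ) (h : n ≤ 2 * m) (x : ℝ) :
    ‖∑' i, iteratedDeriv n (tm c (i + m)) x‖ ≤ ‖c‖ / 2 := by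
  refine tsum_of_norm_bounded (hasSum_geometric_two' (‖c‖ / 2)) fun i => ?_
  refine (tm_le _ _ _ _).trans ?_
  calc _ ≤ 1 / 2 ^ (i + m + 2) * ‖c‖ := by
        gcongr
        exact amp_le (by omega)
    _ ≤ 1 / 2 ^ (i + 2) * ‖c‖ := by
        gcongr
        · norm_num
        · omega
    _ = _ := by ring

theorem G_le (c : ℕ →ᵇ 𝕜) (x : ℝ) : ‖G c x‖ ≤ ‖c‖ / 2 := by
  simpa [G] using tail_le c 0 0 le_rfl x

theorem cos_big (j : ℕ) (y : ℝ) : ∃ n, (n = 2 * j + 1 ∨ n = 2 * j + 2) ∧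
    1 / 2 ≤ |iteratedDeriv n Real.cos y| := by
  by_cases h : 1 / 2 ≤ |Real.sin y|
  · refine ⟨_, Or.inl rfl, ?_⟩
    rw [Real.iteratedDeriv_odd_cos]
    simpa [abs_mul] using h
  · refine ⟨_, Or.inr rfl, ?_⟩
    rw [show 2 * j + 2 = 2 * (j + 1) by ring, Real.iteratedDeriv_even_cos]
    have h1 := Real.sin_sq_add_cos_sq y
    rw [← sq_abs (Real.sin y), ← sq_abs (Real.cos y)] at h1
    have h2 : 1 / 2 ≤ |Real.cos y| := by
      by_contra h3
      nlinarith [abs_nonneg (Real.sin y), abs_nonneg (Real.cos y)]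
    simpa [abs_mul] using h2

theorem big (c : ℕ →ᵇ 𝕜) (x : ℝ) (j : ℕ) (hj : ‖c‖ + 1 ≤ (j + 1) * ‖c (Nat.unpair j).1‖) :
    ∃ n, (n = 2 * j + 1 ∨ n = 2 * j + 2) ∧ ∀ k ≤ j,
      (2 ^ k) ^ n * M n * ‖c‖ + n.factorial * n ^ n ≤ ‖iteratedDeriv n (G c) x‖ := by
  obtain ⟨n, hn, hc⟩ := cos_big j (lam j * x)
  refine ⟨n, hn, fun k hk => ?_⟩
  have hn1 : 2 * j + 1 ≤ n := by omega
  have hn2 : n ≤ 2 * j + 2 := by omega
  rw [G_der, ← (tm_summ c n x).sum_add_tsum_nat_add (j + 1), Finset.sum_range_succ]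
  have h1 := tail_le c n (j + 1) (by omega) x
  set P := ∑ i : Fin j, lam i ^ (2 * j + 2) with hP
  have hP0 : 0 ≤ P := P_nonneg j
  have h2 : ‖∑ i ∈ Finset.range j, iteratedDeriv n (tm c i) x‖ ≤ P * ‖c‖ := by
    rw [hP, Finset.sum_mul, Finset.sum_range]
    refine norm_sum_le_of_le _ fun i _ => (tm_le _ _ _ _).trans ?_
    have a1 := lam_ge i
    have a2 : amp i ≤ 1 := by
      have := amp_le (j := i) (n := 0) (by omega)
      rw [pow_zero, mul_one] at this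
      exact this.trans (div_le_one_of_le₀ (one_le_pow₀ (by norm_num)) (by positivity))
    calc _ ≤ 1 * lam i ^ (2 * j + 2) * ‖c‖ := by gcongr
      _ = _ := by ring
  have h3 : (‖c‖ + 1) * (P + W j) ≤ ‖iteratedDeriv n (tm c j) x‖ := by
    have a1 := lam_ge j
    have a2 := amp_pos j
    have a3 := W_ge j
    rw [tm_der]
    calc _ ≤ (j + 1) * ‖c (Nat.unpair j).1‖ * (P + W j) := by gcongr
      _ = amp j * lam j ^ (2 * j + 1) * (1 / 2) * ‖c (Nat.unpair j).1‖ := by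
        have e : lam j = 2 ^ (j + 3) * ((j + 1) * (P + W j)) := by rw [lam]
        have e2 : amp j * lam j ^ (2 * j + 1) = lam j / 2 ^ (j + 2) := by
          unfold amp
          field_simp
          ring
        rw [e2, e]
        field_simp
        ring
      _ ≤ _ := by gcongr
  have h4 : (2 ^ k) ^ n * M n + 1 ≤ W j ∧ (n.factorial : ℝ) * n ^ n ≤ W j := by
    have b1 := M_nonneg (2 * j + 1)
    have b2 := M_nonneg (2 * j + 2)
    have b3 : M n ≤ M (2 * j + 1) + M (2 * j + 2) := by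
      rcases hn with rfl | rfl <;> linarith
    have b4 : ((2 : ℝ) ^ k) ^ n * M n ≤ (2 ^ j) ^ (2 * j + 2) * (M (2 * j + 1) + M (2 * j + 2)) := by
      have := M_nonneg n
      have b5 : ((2 : ℝ) ^ k) ^ n ≤ (2 ^ j) ^ (2 * j + 2) :=
        calc ((2 : ℝ) ^ k) ^ n ≤ (2 ^ j) ^ n := by gcongr; norm_num
          _ ≤ _ := pow_le_pow_right₀ (one_le_pow₀ (by norm_num)) hn2
      gcongr
    have b6 : (n.factorial : ℝ) * n ^ n ≤ (2 * j + 2).factorial * (2 * j + 2) ^ (2 * j + 2) := by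
      have b7 : (n : ℝ) ≤ 2 * j + 2 := by exact_mod_cast hn2
      have b8 : (n : ℝ) ^ n ≤ (2 * j + 2) ^ (2 * j + 2) :=
        calc (n : ℝ) ^ n ≤ (2 * j + 2) ^ n := by gcongr
          _ ≤ _ := pow_le_pow_right₀ (by have : (0 : ℝ) ≤ j := Nat.cast_nonneg j; linarith) hn2
      have b9 : (n.factorial : ℝ) ≤ (2 * j + 2).factorial := by
        exact_mod_cast Nat.factorial_le hn2
      gcongr
    have b10 : (0 : ℝ) ≤ (2 * j + 2).factorial * (2 * j + 2) ^ (2 * j + 2) := by positivity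
    have b11 : (0 : ℝ) ≤ (2 ^ j) ^ (2 * j + 2) * (M (2 * j + 1) + M (2 * j + 2)) := by positivity
    unfold W
    constructor <;> linarith
  generalize ∑ i ∈ Finset.range j, iteratedDeriv n (tm c i) x = A at *
  generalize iteratedDeriv n (tm c j) x = B at *
  generalize ∑' i, iteratedDeriv n (tm c (i + (j + 1))) x = C at *
  have h5 : ‖B‖ ≤ ‖A + B + C‖ + ‖A‖ + ‖C‖ := by
    calc ‖B‖ = ‖A + B + C - A - C‖ := by congr 1; ring
      _ ≤ _ := (norm_sub_le _ _).trans (by gcongr; exact norm_sub_le _ _)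
  nlinarith [norm_nonneg c, h4.1, h4.2]

/-- the bump part -/
noncomputable def H (c : ℕ →ᵇ 𝕜) (x : ℝ) : 𝕜 := ∑' k, hb k x • c k

theorem H_loc (c : ℕ →ᵇ 𝕜) {k : ℕ} {x : ℝ} (h1 : 7 / 16 < 2 ^ k * x) (h2 : 2 ^ k * x < 5 / 4) :
    H c x = hb k x • c k := by
  have hx : 0 < x := by
    by_contra h
    have : (2 : ℝ) ^ k * x ≤ 0 := mul_nonpos_of_nonneg_of_nonpos (by positivity) (not_lt.1 h)
    linarith
  refine tsum_eq_single k fun j hj => ?_
  rw [hb_zero, zero_smul]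
  rcases lt_or_gt_of_ne hj with h | h
  · left
    have : (2 : ℝ) ^ (j + 1) ≤ 2 ^ k := pow_le_pow_right₀ (by norm_num) h
    rw [pow_succ] at this
    nlinarith
  · right
    have : (2 : ℝ) ^ (k + 1) ≤ 2 ^ j := pow_le_pow_right₀ (by norm_num) h
    rw [pow_succ] at this
    nlinarith

theorem ex_k {x : ℝ} (h0 : 0 < x) (h1 : x ≤ 1) : ∃ k : ℕ, 1 / 2 < 2 ^ k * x ∧ 2 ^ k * x ≤ 1 := by
  obtain ⟨k, a, b⟩ := exists_nat_pow_near_of_lt_one h0 h1 (show (0 : ℝ) < 1 / 2 by norm_num)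
    (by norm_num)
  have e : (2 : ℝ) ^ k * (1 / 2) ^ k = 1 := by rw [← mul_pow]; norm_num
  have p : (0 : ℝ) < 2 ^ k := by positivity
  refine ⟨k, ?_, ?_⟩
  · rw [pow_succ] at a
    nlinarith
  · nlinarith

theorem H_pt {x : ℝ} (hx : x ∈ Icc (0 : ℝ) 1) : ∃ k, ∀ c : ℕ →ᵇ 𝕜, H c x = hb k x • c k := by
  rcases hx.1.eq_or_lt with h | h
  · subst h
    have : ∀ k, hb k 0 = 0 := fun k => hb_zero (Or.inl (by norm_num))
    exact ⟨0, fun c => by simp [H, this]⟩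
  · obtain ⟨k, h1, h2⟩ := ex_k h hx.2
    exact ⟨k, fun c => H_loc c (by linarith) (by linarith)⟩

theorem tm_summ0 (c : ℕ →ᵇ 𝕜) (x : ℝ) : Summable fun j => tm c j x := by
  simpa using tm_summ c 0 x

/-- the parametrisation -/
noncomputable def Phi : (ℕ →ᵇ 𝕜) →ₗ[𝕜] (Icc (0 : ℝ) 1 → 𝕜) where
  toFun c x := G c x + H c x
  map_add' c d := by
    funext x
    obtain ⟨k, hk⟩ := H_pt (𝕜 := 𝕜) x.2
    have : G (c + d) x = G c x + G d x := by
      unfold G
      rw [← (tm_summ0 c x).tsum_add (tm_summ0 d x)]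
      exact tsum_congr fun j => by simp [tm]
    simp only [Pi.add_apply, hk, this, BoundedContinuousFunction.add_apply, smul_add]
    ring
  map_smul' z c := by
    funext x
    obtain ⟨k, hk⟩ := H_pt (𝕜 := 𝕜) x.2
    have : G (z • c) x = z * G c x := by
      unfold G
      rw [← tsum_mul_left]
      exact tsum_congr fun j => by simp [tm]
    simp only [Pi.smul_apply, hk, this, BoundedContinuousFunction.smul_apply, smul_eq_mul,
      RingHom.id_apply, mul_add, mul_smul_comm]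

theorem Phi_le (c : ℕ →ᵇ 𝕜) (x : Icc (0 : ℝ) 1) : ‖Phi c x‖ ≤ 2 * ‖c‖ := by
  obtain ⟨k, hk⟩ := H_pt (𝕜 := 𝕜) x.2
  have h1 := G_le c x
  have h2 : ‖H c x‖ ≤ ‖c‖ := by
    rw [hk, norm_smul, Real.norm_eq_abs, abs_of_nonneg (show 0 ≤ hb k x from bump.nonneg)]
    exact (mul_le_of_le_one_left (norm_nonneg _) bump.le_one).trans (c.norm_coe_le_norm k)
  exact (norm_add_le _ _).trans (by linarith [norm_nonneg c])

theorem Phi_ge (c : ℕ →ᵇ 𝕜) {e : ℝ} (h : ∀ x, ‖Phi c x‖ ≤ e) : ‖c‖ ≤ 2 * e := by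
  have he : 0 ≤ e := (norm_nonneg _).trans (h ⟨0, by simp⟩)
  have : ‖c‖ ≤ e + ‖c‖ / 2 := by
    refine (BoundedContinuousFunction.norm_le (by positivity)).2 fun k => ?_
    have p : (1 : ℝ) ≤ 2 ^ k := one_le_pow₀ (by norm_num)
    have e1 : (2 : ℝ) ^ k * (3 / 4 / 2 ^ k) = 3 / 4 := by field_simp
    have hx : (3 / 4 / 2 ^ k : ℝ) ∈ Icc (0 : ℝ) 1 :=
      ⟨by positivity, div_le_one_of_le₀ (by linarith) (by positivity)⟩
    have h1 := h ⟨_, hx⟩
    have h2 := G_le c (3 / 4 / 2 ^ k)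
    have h3 : H c (3 / 4 / 2 ^ k) = c k := by
      rw [H_loc c (k := k) (by rw [e1]; norm_num) (by rw [e1]; norm_num), hb, e1,
        bump.one_of_mem_closedBall (Metric.mem_closedBall_self bump.rIn_pos.le), one_smul]
    have h4 : Phi c ⟨_, hx⟩ = G c (3 / 4 / 2 ^ k) + c k := by rw [← h3]; rfl
    rw [h4] at h1
    calc ‖c k‖ = ‖G c (3 / 4 / 2 ^ k) + c k - G c (3 / 4 / 2 ^ k)‖ := by congr 1; ring
      _ ≤ _ := (norm_sub_le _ _).trans (by linarith)
  linarith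

omit [RCLike 𝕜] in
theorem ext_eq (f : Icc (0 : ℝ) 1 → 𝕜) {x : ℝ} (hx : x ∈ Icc (0 : ℝ) 1) : ext f x = f ⟨x, hx⟩ :=
  IccExtend_of_mem _ _ hx

theorem der_loc (c : ℕ →ᵇ 𝕜) (n : ℕ) {k : ℕ} {x : ℝ} (hx : x ∈ Icc (0 : ℝ) 1)
    (h1 : 7 / 16 < 2 ^ k * x) (h2 : 2 ^ k * x < 5 / 4) :
    der n (Phi c) x = iteratedDeriv n (G c) x + iteratedDeriv n (hb k) x • c k := by
  have e : ext (Phi c) =ᶠ[𝓝[Icc 0 1] x] fun y => G c y + hb k y • c k := by
    have o : ∀ᶠ y in 𝓝 x, 7 / 16 < (2 : ℝ) ^ k * y ∧ (2 : ℝ) ^ k * y < 5 / 4 :=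
      (ContinuousAt.eventually_lt (by fun_prop) (by fun_prop) h1).and
        (ContinuousAt.eventually_lt (by fun_prop) (by fun_prop) h2)
    filter_upwards [self_mem_nhdsWithin, mem_nhdsWithin_of_mem_nhds o] with y hy hy2
    rw [ext_eq _ hy, ← H_loc c hy2.1 hy2.2]
    rfl
  have s1 : ContDiffAt ℝ n (G c) x := ((G_smooth c).of_le (by exact_mod_cast le_top)).contDiffAt
  have s2 : ContDiffAt ℝ n (hb k) x := ((hb_smooth k).of_le (by exact_mod_cast le_top)).contDiffAt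
  have s3 : ContDiffAt ℝ n (fun y => hb k y • c k) x := s2.smul contDiffAt_const
  unfold der
  rw [e.iteratedDerivWithin_eq (e.eq_of_nhdsWithin hx), iteratedDerivWithin_eq_iteratedDeriv
    (uniqueDiffOn_Icc zero_lt_one) (s1.add s3) hx,
    iteratedDeriv_fun_add s1 s3, iteratedDeriv_smul_const s2]

theorem der_zero (c : ℕ →ᵇ 𝕜) (hs : Smooth (Phi c)) (n : ℕ) :
    der n (Phi c) 0 = iteratedDeriv n (G c) 0 := by
  have t : Tendsto (fun k : ℕ => ((1 : ℝ) / 2) ^ k) atTop (𝓝 0) :=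
    tendsto_pow_atTop_nhds_zero_of_lt_one (by norm_num) (by norm_num)
  have m : ∀ k : ℕ, ((1 : ℝ) / 2) ^ k ∈ Icc (0 : ℝ) 1 := fun k =>
    ⟨by positivity, pow_le_one₀ (by norm_num) (by norm_num)⟩
  have c1 : ContinuousWithinAt (der n (Phi c)) (Icc 0 1) 0 :=
    ContDiffOn.continuousOn_iteratedDerivWithin hs (by exact_mod_cast le_top)
      (uniqueDiffOn_Icc zero_lt_one) 0 (by simp)
  have t1 := c1.tendsto.comp (tendsto_nhdsWithin_iff.2 ⟨t, Eventually.of_forall m⟩)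
  have t2 := (((G_smooth c).continuous_iteratedDeriv n
    (by exact_mod_cast le_top)).tendsto 0).comp t
  refine tendsto_nhds_unique t1 (t2.congr fun k => ?_)
  have e : (2 : ℝ) ^ k * (1 / 2) ^ k = 1 := by rw [← mul_pow]; norm_num
  have z : hb k =ᶠ[𝓝 ((1 / 2) ^ k)] fun _ => 0 := by
    have o : ∀ᶠ y in 𝓝 (((1 : ℝ) / 2) ^ k), 7 / 8 < (2 : ℝ) ^ k * y :=
      ContinuousAt.eventually_lt (by fun_prop) (by fun_prop) (by rw [e]; norm_num)
    filter_upwards [o] with y hy using hb_zero (Or.inr hy.le)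
  simp only [Function.comp]
  rw [der_loc c n (k := k) (m k) (by rw [e]; norm_num) (by rw [e]; norm_num), z.iteratedDeriv_eq]
  simp

theorem der_near (c : ℕ →ᵇ 𝕜) (hs : Smooth (Phi c)) {x : ℝ} (hx : x ∈ Icc (0 : ℝ) 1) :
    ∃ k : ℕ, ∀ n, ‖iteratedDeriv n (G c) x‖ ≤ ‖der n (Phi c) x‖ + (2 ^ k) ^ n * M n * ‖c‖ := by
  rcases hx.1.eq_or_lt with h | h
  · subst h
    refine ⟨0, fun n => ?_⟩
    rw [der_zero c hs]
    have := M_nonneg n
    exact le_add_of_nonneg_right (by positivity)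
  · obtain ⟨k, h1, h2⟩ := ex_k h hx.2
    refine ⟨k, fun n => ?_⟩
    rw [der_loc c n (k := k) hx (by linarith) (by linarith)]
    have h3 : ‖iteratedDeriv n (hb k) x • c k‖ ≤ (2 ^ k) ^ n * M n * ‖c‖ := by
      rw [norm_smul, Real.norm_eq_abs]
      have := M_nonneg n
      gcongr
      · exact hb_der k n x
      · exact c.norm_coe_le_norm k
    generalize iteratedDeriv n (hb k) x • c k = B at *
    generalize iteratedDeriv n (G c) x = A
    calc ‖A‖ = ‖A + B - B‖ := by congr 1; ring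
      _ ≤ _ := (norm_sub_le _ _).trans (by linarith)

theorem rho_zero (c : ℕ →ᵇ 𝕜) (hs : Smooth (Phi c)) (hc : c ≠ 0) {x : ℝ}
    (hx : x ∈ Icc (0 : ℝ) 1) : rho (Phi c) x = 0 := by
  by_contra h
  obtain ⟨r, hr0, hr⟩ := ENNReal.lt_iff_exists_nnreal_btwn.1 (pos_iff_ne_zero.2 h)
  have hr1 : (0 : ℝ) < r := by exact_mod_cast hr0
  obtain ⟨C, hC, hb⟩ := FormalMultilinearSeries.norm_mul_pow_le_of_lt_radius _ hr
  obtain ⟨k, hk⟩ := der_near c hs hx
  obtain ⟨i, hi⟩ : ∃ i, c i ≠ 0 := by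
    by_contra h2
    push Not at h2
    exact hc (BoundedContinuousFunction.ext h2)
  have hi2 := norm_pos_iff.2 hi
  obtain ⟨N, hN⟩ := exists_nat_gt (max (max ((‖c‖ + 1) / ‖c i‖) (2 / r)) (max C k))
  simp only [max_lt_iff] at hN
  obtain ⟨⟨n1, n2⟩, n3, n4⟩ := hN
  have hj : N ≤ Nat.pair i N := Nat.right_le_pair i N
  have hj' : (N : ℝ) ≤ Nat.pair i N := by exact_mod_cast hj
  obtain ⟨n, hn, hbig⟩ := big c x (Nat.pair i N) (by
    rw [Nat.unpair_pair]
    rw [div_lt_iff₀ hi2] at n1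
    nlinarith)
  have h1 := hbig k (by have : k < N := by exact_mod_cast n4
                        omega)
  have h2 := hk n
  have h3 := hb n
  rw [FormalMultilinearSeries.ofScalars_norm, norm_div, RCLike.norm_natCast] at h3
  have hf : (0 : ℝ) < n.factorial := by positivity
  have h4 : (n : ℝ) ^ n ≤ ‖der n (Phi c) x‖ / n.factorial := by
    rw [le_div_iff₀ hf]
    linarith
  have hNn : (N : ℝ) ≤ n := by exact_mod_cast (show N ≤ n by omega)
  have h5 : (2 : ℝ) ^ n ≤ (n : ℝ) ^ n * r ^ n := by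
    rw [← mul_pow]
    rw [div_lt_iff₀ hr1] at n2
    gcongr
    nlinarith
  have h6 : (n : ℝ) < 2 ^ n := by exact_mod_cast Nat.lt_two_pow_self
  have h7 : (n : ℝ) ^ n * r ^ n ≤ C := le_trans (by gcongr) h3
  linarith

/-- unit sequences -/
noncomputable def ev (k : ℕ) : ℕ →ᵇ 𝕜 :=
  BoundedContinuousFunction.ofNormedAddCommGroupDiscrete (fun i => if i = k then 1 else 0) 1
    fun i => by split_ifs <;> simp

theorem ev_apply (k i : ℕ) : (ev k : ℕ →ᵇ 𝕜) i = if i = k then 1 else 0 := rfl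

theorem ev_smooth (k : ℕ) : Smooth (Phi (ev k : ℕ →ᵇ 𝕜)) := by
  have s : ContDiff ℝ ∞ fun y => G (ev k : ℕ →ᵇ 𝕜) y + hb k y • (1 : 𝕜) :=
    (G_smooth _).add ((hb_smooth k).smul contDiff_const)
  refine s.contDiffOn.congr fun x hx => ?_
  rw [ext_eq _ hx]
  have : H (ev k : ℕ →ᵇ 𝕜) x = hb k x • (1 : 𝕜) := by
    unfold H
    rw [tsum_eq_single k fun j hj => by simp [ev_apply, hj]]
    simp [ev_apply]
  rw [← this]
  rfl

/-- the closed subspace -/
noncomputable def V : Submodule 𝕜 (Icc (0 : ℝ) 1 → 𝕜) where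
  carrier := {f | Smooth f ∧ ∃ c, Phi c = f}
  add_mem' := by
    rintro f g ⟨h1, c, hc⟩ ⟨h2, d, hd⟩
    refine ⟨(ContDiffOn.add h1 h2).congr fun x hx => ?_, c + d, by rw [map_add, hc, hd]⟩
    simp only [ext_eq _ hx, Pi.add_apply]
  zero_mem' := ⟨(contDiffOn_const (c := 0)).congr fun x hx => by simp [ext_eq _ hx], 0, map_zero _⟩
  smul_mem' := by
    rintro z f ⟨h1, c, hc⟩
    refine ⟨(ContDiffOn.mul (contDiffOn_const (c := z)) h1).congr fun x hx => ?_, z • c,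
      by rw [map_smul, hc]⟩
    simp only [ext_eq _ hx, Pi.smul_apply, smul_eq_mul]

theorem result (𝕜 : Type) [RCLike 𝕜] : ∃ V : Submodule 𝕜 (Icc (0 : ℝ) 1 → 𝕜),
    (∀ f ∈ V, Smooth f) ∧ ¬ Module.Finite 𝕜 V ∧
    (∀ (g : ℕ → Icc (0 : ℝ) 1 → 𝕜) (f : Icc (0 : ℝ) 1 → 𝕜), (∀ k, g k ∈ V) → Smooth f →
      (∀ n, TendstoUniformlyOn (fun k => der n (g k)) (der n f) atTop (Icc 0 1)) → f ∈ V) ∧
    ∀ f ∈ V, f ≠ 0 → ∀ x ∈ Icc (0 : ℝ) 1, rho f x = 0 := by
  refine ⟨V, fun f hf => hf.1, fun hfin => ?_, fun g f hg hf ht => ⟨hf, ?_⟩, ?_⟩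
  · refine Module.Finite.not_linearIndependent_of_infinite (R := 𝕜)
      (fun k : ℕ => (⟨Phi (ev k), ev_smooth k, _, rfl⟩ : (V : Submodule 𝕜 _))) ?_
    refine LinearIndependent.of_comp V.subtype ?_
    have h1 : LinearIndependent 𝕜 (ev : ℕ → ℕ →ᵇ 𝕜) := by
      rw [linearIndependent_iff']
      intro s a h j hj
      have := congrArg (fun c : ℕ →ᵇ 𝕜 => c j) h
      simpa [BoundedContinuousFunction.sum_apply, ev_apply, hj] using this
    refine h1.map' Phi (LinearMap.ker_eq_bot'.2 fun c hc => ?_)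
    have := Phi_ge c (e := 0) fun x => by simp [hc]
    exact norm_le_zero_iff.1 (by linarith)
  · choose c hc using fun k => (hg k).2
    have h0 : ∀ ε > 0, ∀ᶠ k in atTop, ∀ x, ‖f x - g k x‖ < ε := by
      intro ε hε
      filter_upwards [Metric.tendstoUniformlyOn_iff.1 (ht 0) ε hε] with k hk x
      have := hk x x.2
      simpa [der, ext_eq _ x.2, dist_eq_norm] using this
    have h1 : CauchySeq c := by
      rw [Metric.cauchySeq_iff]
      intro ε hε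
      obtain ⟨N, hN⟩ := eventually_atTop.1 (h0 (ε / 5) (by positivity))
      refine ⟨N, fun m hm n hn => ?_⟩
      rw [dist_eq_norm]
      have := Phi_ge (c m - c n) (e := 2 * (ε / 5)) fun x => by
        rw [map_sub, hc, hc, Pi.sub_apply]
        calc ‖g m x - g n x‖ = ‖(f x - g n x) - (f x - g m x)‖ := by congr 1; ring
          _ ≤ _ := (norm_sub_le _ _).trans (by linarith [hN m hm x, hN n hn x])
      linarith
    obtain ⟨d, hd⟩ := cauchySeq_tendsto_of_complete h1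
    refine ⟨d, funext fun x => ?_⟩
    refine eq_of_norm_sub_le_zero (le_of_forall_pos_le_add fun ε hε => ?_)
    obtain ⟨k, k1, k2⟩ := ((h0 (ε / 3) (by positivity)).and
      (Metric.tendsto_nhds.1 hd (ε / 3) (by positivity))).exists
    have h2 := Phi_le (c k - d) x
    rw [map_sub, hc, Pi.sub_apply] at h2
    rw [dist_eq_norm] at k2
    calc ‖Phi d x - f x‖ = ‖(f x - g k x) + (g k x - Phi d x)‖ := by
          rw [← norm_neg]; congr 1; ring
      _ ≤ _ := (norm_add_le _ _).trans (by linarith [k1 x])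
  · rintro f ⟨hf, c, rfl⟩ h0 x hx
    exact rho_zero c hf (fun h => h0 (by rw [h, map_zero])) hx

end Pool.Agent.Results.MP_ffb385_an.Spaceable
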